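import Mathlib

set_option autoImplicit false

namespace Pool.Agent.H.MP_57df8f_al

open Subgroup

structure Sp (G X Γ : Type) [Group G] [MulAction G X] [LinearOrderedCommGroupWithZero Γ] where
  d : X → X → Γ
  o : X
  τ : Γ
  self : ∀ x, d x x = 0
  sep : ∀ x y, d x y = 0 → x = y
  symm : ∀ x y, d x y = d y x
  ultra : ∀ x y z, d x z ≤ max (d x y) (d y z)
  le1 : ∀ x y, d x y ≤ 1
  lip : ∀ g : G, ∃ L, ∀ x y, d (g • x) (g • y) ≤ L * d x y
  t0 : τ ≠ 0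
  t1 : τ < 1
  arch : ∀ r ≠ 0, ∃ n : ℕ, τ ^ n < r
  inf : ∀ x r, r ≠ 0 → {y | d x y < r}.Infinite
  fin : ∀ g : G, g ≠ 1 → {x : X | g • x = x}.Finite
  two : ∀ x y x' y' : X, x ≠ y → x' ≠ y' → ∃ g : G, g • x = x' ∧ g • y = y'
  prox : ∀ R ≠ 0, ∀ η ≠ 0, ∃ γ : G, ∃ r ≠ 0, r < R ∧ γ * γ = 1 ∧
    (∀ x, d o x < r ↔ r < d o (γ • x)) ∧
    ∀ x y, R ≤ d o x → R ≤ d o y → d (γ • x) (γ • y) ≤ η * r * d x y

variable {G X Γ : Type} [Group G] [MulAction G X] [LinearOrderedCommGroupWithZero Γ]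

structure Dom (S : Sp G X Γ) (Δ : Subgroup G) (D : Set X) (C : Γ) : Prop where
  c1 : 1 ≤ C
  op : ∀ x ∈ D, ∃ r ≠ 0, ∀ y, S.d x y < r → y ∈ D
  wan : ∀ δ ∈ Δ, ∀ x ∈ D, δ • x ∈ D → δ = 1
  lip : ∀ δ ∈ Δ, ∀ x ∈ D, ∀ y ∈ D, S.d (δ • x) (δ • y) ≤ C * S.d x y
  den : ∀ x, ∀ r ≠ 0, ∃ z, S.d x z < r ∧ ∃ δ ∈ Δ, δ • z ∈ D

theorem Sp.tr (S : Sp G X Γ) {x y z : X} {r : Γ} (a : S.d x y < r) (b : S.d y z < r) :
    S.d x z < r := (S.ultra x y z).trans_lt (max_lt a b)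

inductive T {J : Type} (Δ : Subgroup G) (σ : J → J) (s : J → G) : Option J → G → Prop
  | one : T Δ σ s none 1
  | cons (j : J) (δ : G) (o : Option J) (h : G) : δ ∈ Δ → T Δ σ s o h → (δ = 1 → o ≠ some (σ j)) →
      T Δ σ s (some j) (s j * δ * h)

theorem nf {J : Type} (Δ : Subgroup G) {σ : J → J} {s : J → G} (hs : ∀ j, s (σ j) = (s j)⁻¹) :
    ∀ g ∈ closure ((Δ : Set G) ∪ Set.range s), ∃ δ ∈ Δ, ∃ o h, T Δ σ s o h ∧ g = δ * h := by
  have k : ∀ j g, (∃ δ ∈ Δ, ∃ o h, T Δ σ s o h ∧ g = δ * h) →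
      ∃ δ ∈ Δ, ∃ o h, T Δ σ s o h ∧ s j * g = δ * h := by
    rintro j _ ⟨δ, hδ, o, h, t, rfl⟩
    by_cases e : δ = 1 → o ≠ some (σ j)
    · exact ⟨1, one_mem _, _, _, T.cons j δ o h hδ t e, by rw [one_mul, mul_assoc]⟩
    · push Not at e
      obtain ⟨rfl, rfl⟩ := e
      cases t with
      | cons _ δ o h a b c => exact ⟨δ, a, o, h, b, by rw [hs]; group⟩
  intro g hg
  induction hg using closure_induction_left with
  | one => exact ⟨1, one_mem _, _, _, T.one, by simp⟩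
  | mul_left x hx y _ ih =>
    rcases hx with hx | ⟨j, rfl⟩
    · obtain ⟨δ, hδ, o, h, t, rfl⟩ := ih
      exact ⟨x * δ, mul_mem hx hδ, o, h, t, (mul_assoc _ _ _).symm⟩
    · exact k j y ih
  | inv_mul_cancel x hx y _ ih =>
    rcases hx with hx | ⟨j, rfl⟩
    · obtain ⟨δ, hδ, o, h, t, rfl⟩ := ih
      exact ⟨x⁻¹ * δ, mul_mem (inv_mem hx) hδ, o, h, t, (mul_assoc _ _ _).symm⟩
    · exact hs j ▸ k (σ j) y ih

theorem pp {S : Sp G X Γ} {Δ : Subgroup G} {D : Set X} {C : Γ} (H : Dom S Δ D C) {J : Type}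
    {σ : J → J} {s : J → G} (hσ : ∀ j, σ (σ j) = j) (hs : ∀ j, s (σ j) = (s j)⁻¹)
    {U V : J → Set X} {ρ ε L : Γ} (hU : ∀ j x, x ∈ U j ↔ s j • x ∉ U (σ j))
    (uv : ∀ j, U j ⊆ V j) (vd : ∀ j, V j ⊆ D) (dj : ∀ i j, ∀ x ∈ U i, x ∈ V j → i = j)
    (gu : ∀ j x y, S.d x y < ρ → x ∈ U j → y ∈ U j) (gv : ∀ j x y, S.d x y < ρ → x ∈ V j → y ∈ V j)
    (ct : ∀ j x y, x ∉ V j → y ∉ V j → S.d (s j • x) (s j • y) ≤ ε * S.d x y)
    (hL : ∀ j x y, S.d (s j • x) (s j • y) ≤ L * S.d x y) (L1 : 1 ≤ L) (e0 : ε ≠ 0)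
    (ec : ε * C < ρ) (rt : ρ ≤ S.τ) {y0 : X} (h0 : y0 ∈ D) (h1 : ∀ j, y0 ∉ V j) :
    Dom S (closure ((Δ : Set G) ∪ Set.range s)) (D \ ⋃ j, U j) (C * L) := by
  have r1 : ρ ≤ 1 := rt.trans S.t1.le
  have r0 : 0 < ρ := zero_le'.trans_lt ec
  have c0 : 0 < C := zero_lt_one.trans_le H.c1
  have e1 : ε ≤ 1 := (le_mul_of_one_le_right' H.c1).trans (ec.le.trans r1)
  have key : ∀ o h, T Δ σ s o h → (o = none → h = 1) ∧ (∀ j, o = some j → ∀ x ∈ D \ ⋃ j, U j,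
      h • x ∈ U (σ j)) ∧ ∀ x ∈ D \ ⋃ j, U j, ∀ y ∈ D \ ⋃ j, U j,
      S.d (h • x) (h • y) ≤ L * S.d x y := by
    intro o h t
    induction t with
    | one => exact ⟨fun _ => rfl, fun _ e => by simp at e, fun x _ y _ => by
        simpa using le_mul_of_one_le_left' L1⟩
    | cons j δ o h a _ c ih =>
      obtain ⟨i1, i2, i3⟩ := ih
      have hd : ∀ x ∈ D \ ⋃ j, U j, h • x ∈ D := fun x hx => by
        cases o with
        | none => simpa [i1 rfl] using hx.1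
        | some i => exact vd _ (uv _ (i2 i rfl x hx))
      by_cases e : δ = 1 ∧ o = none
      · obtain ⟨rfl, rfl⟩ := e
        rw [i1 rfl, mul_one, mul_one]
        refine ⟨fun e => by simp at e, fun i e x hx => ?_, fun x _ y _ => hL j x y⟩
        obtain rfl : j = i := by simpa using e
        exact not_not.1 fun h => hx.2 (Set.mem_iUnion.2 ⟨j, (hU j x).2 h⟩)
      · have hv : ∀ x ∈ D \ ⋃ j, U j, δ • h • x ∉ V j := fun x hx hv => by
          obtain rfl := H.wan δ a _ (hd x hx) (vd j hv)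
          cases o with
          | none => exact e ⟨rfl, rfl⟩
          | some i =>
            rw [one_smul] at hv
            exact c rfl (by rw [← dj _ _ _ (i2 i rfl x hx) hv, hσ])
        refine ⟨fun e => by simp at e, fun i e x hx => ?_, fun x hx y hy => ?_⟩
        · obtain rfl : j = i := by simpa using e
          rw [mul_smul, mul_smul]
          exact not_not.1 fun h => hv x hx (uv j ((hU j _).2 h))
        · simp only [mul_smul]
          refine (ct j _ _ (hv x hx) (hv y hy)).trans ?_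
          refine (mul_le_mul_right (H.lip δ a _ (hd x hx) _ (hd y hy)) _).trans ?_
          rw [← mul_assoc]
          exact (mul_le_of_le_one_left' (ec.le.trans r1)).trans (i3 x hx y hy)
  have hd : ∀ o h, T Δ σ s o h → ∀ x ∈ D \ ⋃ j, U j, h • x ∈ D := fun o h t x hx => by
    cases o with
    | none => simpa [(key _ _ t).1 rfl] using hx.1
    | some i => exact vd _ (uv _ ((key _ _ t).2.1 i rfl x hx))
  refine ⟨one_le_mul H.c1 L1, fun x hx => ?_, fun g hg x hx hy => ?_, fun g hg x hx y hy => ?_, ?_⟩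
  · obtain ⟨r, a, b⟩ := H.op x hx.1
    refine ⟨min r ρ, (lt_min (zero_lt_iff.2 a) r0).ne', fun y hy => ⟨b y (hy.trans_le
      (min_le_left _ _)), fun h => hx.2 ?_⟩⟩
    obtain ⟨j, hj⟩ := Set.mem_iUnion.1 h
    exact Set.mem_iUnion.2 ⟨j, gu j y x (S.symm x y ▸ hy.trans_le (min_le_right _ _)) hj⟩
  · obtain ⟨δ, a, o, h, t, rfl⟩ := nf Δ hs g hg
    rw [mul_smul] at hy
    obtain rfl := H.wan δ a _ (hd o h t x hx) hy.1
    cases o with
    | none => rw [(key _ _ t).1 rfl, one_mul]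
    | some i => exact absurd (Set.mem_iUnion.2 ⟨_, (key _ _ t).2.1 i rfl x hx⟩) (by simpa using hy.2)
  · obtain ⟨δ, a, o, h, t, rfl⟩ := nf Δ hs g hg
    rw [mul_smul, mul_smul, mul_assoc]
    exact (H.lip δ a _ (hd o h t x hx) _ (hd o h t y hy)).trans
      (mul_le_mul_right ((key _ _ t).2.2 x hx y hy) _)
  · let Ω : X → Prop := fun z => ∃ δ ∈ closure ((Δ : Set G) ∪ Set.range s), δ • z ∈ D \ ⋃ j, U j
    have inv : ∀ g ∈ closure ((Δ : Set G) ∪ Set.range s), ∀ z, Ω z → Ω (g • z) :=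
      fun g hg z ⟨δ, a, b⟩ => ⟨δ * g⁻¹, mul_mem a (inv_mem hg), by rwa [mul_smul, inv_smul_smul]⟩
    have m1 : ∀ g ∈ Δ, g ∈ closure ((Δ : Set G) ∪ Set.range s) := fun g h => subset_closure (.inl h)
    have m2 : ∀ j, s j ∈ closure ((Δ : Set G) ∪ Set.range s) := fun j => subset_closure (.inr ⟨j, rfl⟩)
    have o1 : ∀ z ∈ D \ ⋃ j, U j, Ω z := fun z h => ⟨1, one_mem _, by rwa [one_smul]⟩
    have st : ∀ x r, r ≠ 0 → r ≤ ρ → (∀ z, S.d x z < r → ¬ Ω z) →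
        ∃ x' j, x' ∉ V j ∧ ∀ w ∉ V j, ε * C * S.d x' w < r → ¬ Ω w := by
      intro x r a b M
      obtain ⟨z, z1, δ, z2, z3⟩ := H.den x r a
      obtain ⟨j, hj⟩ : ∃ j, δ • z ∈ U j := Set.mem_iUnion.1 (not_not.1 fun h =>
        M z z1 ⟨δ, m1 δ z2, z3, h⟩)
      have M2 : ∀ w, C * S.d (δ • z) w < r → ¬ Ω w := fun w hw ow => by
        have w1 := gu j _ w (((le_mul_of_one_le_left' H.c1).trans_lt hw).trans_le b) hj
        have := (H.lip _ (inv_mem z2) _ z3 _ (vd j (uv j w1))).trans_lt hw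
        rw [inv_smul_smul] at this
        exact M _ (S.tr z1 this) (inv _ (inv_mem (m1 δ z2)) w ow)
      have nv : s j • δ • z ∉ V (σ j) := fun h => by
        refine M z z1 ⟨s j * δ, mul_mem (m2 j) (m1 δ z2), ?_⟩
        rw [mul_smul]
        refine ⟨vd _ h, fun h' => ?_⟩
        obtain ⟨i, hi⟩ := Set.mem_iUnion.1 h'
        obtain rfl := dj _ _ _ hi h
        exact (hU j _).1 hj hi
      refine ⟨_, _, nv, fun w hw h ow => M2 _ ?_ (inv _ (m2 (σ j)) w ow)⟩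
      have := ct _ _ _ nv hw
      rw [hs, inv_smul_smul, ← hs] at this
      refine (mul_le_mul_right this _).trans_lt ?_
      rwa [← mul_assoc, mul_comm C]
    have P : ∀ n : ℕ, ∀ x, ¬ ∀ z, S.d x z < ρ ^ (n + 1) → ¬ Ω z := by
      intro n
      induction n with
      | zero =>
        intro x M
        obtain ⟨x', j, _, b⟩ := st x _ (pow_pos r0 _).ne' (by simp) M
        refine b y0 (h1 j) ?_ (o1 y0 ⟨h0, fun h => ?_⟩)
        · simpa using (mul_le_of_le_one_right' (S.le1 _ _)).trans_lt ec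
        · obtain ⟨i, hi⟩ := Set.mem_iUnion.1 h
          exact h1 i (uv i hi)
      | succ n ih =>
        intro x M
        have le : ∀ n : ℕ, ρ ^ (n + 1) ≤ ρ := fun n => by
          rw [pow_succ]; exact mul_le_of_le_one_left' (pow_le_one' r1 n)
        obtain ⟨x', j, a, b⟩ := st x _ (pow_pos r0 _).ne' (le _) M
        refine ih x' fun w hw => b w (fun h => a (gv j w x' (S.symm x' w ▸ hw.trans_le (le n)) h)) ?_
        rw [pow_succ' ρ (n + 1)]
        exact (mul_le_mul_left ec.le _).trans_lt (mul_lt_mul_of_pos_left hw r0)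
    intro x r hr
    obtain ⟨n, hn⟩ := S.arch r hr
    by_contra h
    refine P n x fun z hz oz => h ⟨z, hz.trans_le ?_, oz⟩
    rw [pow_succ]
    exact (mul_le_of_le_one_right' r1).trans ((pow_le_pow_left' rt n).trans hn.le)

end Pool.Agent.H.MP_57df8f_al
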