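import Pool.Agent.H.MP_57df8f_al.A

set_option autoImplicit false

namespace Pool.Agent.H.MP_57df8f_al

open Subgroup

variable {G X Γ : Type} [Group G] [MulAction G X] [LinearOrderedCommGroupWithZero Γ]

theorem upb {ι : Type} [Finite ι] (f : ι → Γ) : ∃ L, 1 ≤ L ∧ ∀ i, f i ≤ L := by
  obtain ⟨L, h⟩ := Finite.exists_le f
  exact ⟨max 1 L, le_max_left _ _, fun i => (h i).trans (le_max_right _ _)⟩

theorem lowb {ι : Type} [Finite ι] (f : ι → Γ) (hf : ∀ i, f i ≠ 0) : ∃ r ≠ 0, ∀ i, r ≤ f i := by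
  obtain ⟨L, a, b⟩ := upb fun i => (f i)⁻¹
  have := zero_lt_one.trans_le a
  exact ⟨L⁻¹, inv_ne_zero this.ne', fun i => inv_le_of_inv_le₀ (zero_lt_iff.2 (hf i)) (b i)⟩

theorem Sp.lips (S : Sp G X Γ) {ι : Type} [Finite ι] (f : ι → G) :
    ∃ L, 1 ≤ L ∧ ∀ i x y, S.d (f i • x) (f i • y) ≤ L * S.d x y := by
  choose l hl using S.lip
  obtain ⟨L, a, b⟩ := upb fun i => l (f i)
  exact ⟨L, a, fun i x y => (hl _ x y).trans (mul_le_mul_left (b i) _)⟩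

theorem Sp.cont (S : Sp G X Γ) (g : G) (x : X) {r : Γ} (hr : r ≠ 0) :
    ∃ r' ≠ 0, ∀ y, S.d x y < r' → S.d (g • x) (g • y) < r := by
  obtain ⟨L, a, b⟩ := S.lips fun _ : Unit => g
  have := zero_lt_one.trans_le a
  exact ⟨r / L, div_ne_zero hr this.ne', fun y hy => (b () x y).trans_lt
    ((lt_div_iff₀' this).1 hy)⟩

theorem place {S : Sp G X Γ} {Δ : Subgroup G} {D : Set X} {C : Γ} (H : Dom S Δ D C) {k : ℕ}
    (c : Fin k → G) (hc : ∀ i j, (c i)⁻¹ * c j ∈ Δ → i = j) {Y : Set X} (hY : Y.Finite) :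
    ∃ p : X, ∃ δ : Fin k → G, (∀ i, δ i ∈ Δ ∧ (δ i * (c i)⁻¹) • p ∈ D \ Y) ∧
      Function.Injective fun i => (δ i * (c i)⁻¹) • p := by
  have h1 : ∀ s : Finset (Fin k), ∃ x, ∃ r ≠ 0, ∀ i ∈ s, ∃ δ ∈ Δ, ∀ y, S.d x y < r →
      (δ * (c i)⁻¹) • y ∈ D := by
    intro s
    induction s using Finset.induction_on with
    | empty => exact ⟨S.o, 1, one_ne_zero, by simp⟩
    | insert i s _ ih =>
      obtain ⟨x, r, a, b⟩ := ih
      obtain ⟨r1, a1, b1⟩ := S.cont (c i) ((c i)⁻¹ • x) a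
      obtain ⟨z, z1, δ, z2, z3⟩ := H.den ((c i)⁻¹ • x) r1 a1
      have z4 := b1 z z1
      rw [smul_inv_smul] at z4
      obtain ⟨r2, a2, b2⟩ := H.op _ z3
      obtain ⟨r3, a3, b3⟩ := S.cont (δ * (c i)⁻¹) (c i • z) a2
      refine ⟨c i • z, min r r3, (lt_min (zero_lt_iff.2 a) (zero_lt_iff.2 a3)).ne', fun j hj => ?_⟩
      rcases Finset.mem_insert.1 hj with rfl | hj
      · refine ⟨δ, z2, fun y hy => b2 _ ?_⟩
        simpa [mul_smul] using b3 y (hy.trans_le (min_le_right _ _))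
      · obtain ⟨δ', u, v⟩ := b j hj
        exact ⟨δ', u, fun y hy => v y (S.tr z4 (hy.trans_le (min_le_left _ _)))⟩
  obtain ⟨x, r, a, b⟩ := h1 Finset.univ
  choose δ d1 d2 using fun i => b i (Finset.mem_univ i)
  have f1 : (⋃ i, (fun y => (δ i * (c i)⁻¹) • y) ⁻¹' Y).Finite :=
    Set.finite_iUnion fun i => hY.preimage (MulAction.injective _).injOn
  have f2 : (⋃ i, ⋃ j, ⋃ _ : i ≠ j, {y : X | ((δ i * (c i)⁻¹)⁻¹ * (δ j * (c j)⁻¹)) • y = y}).Finite :=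
    Set.finite_iUnion fun i => Set.finite_iUnion fun j => Set.finite_iUnion fun e =>
      S.fin _ fun h => e (hc i j (by
        have : (c i)⁻¹ * c j = (δ i)⁻¹ * δ j := by
          rw [← one_mul (c j), ← h]; group
        exact this ▸ mul_mem (inv_mem (d1 i)) (d1 j)))
  obtain ⟨p, p1, p2⟩ := (S.inf x r a).exists_notMem_finite (f1.union f2)
  simp only [Set.mem_union, Set.mem_iUnion, not_or, not_exists] at p2
  refine ⟨p, δ, fun i => ⟨d1 i, d2 i p p1, p2.1 i⟩, fun i j e => not_not.1 fun h => p2.2 i j h ?_⟩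
  show _ • p = p
  rw [mul_smul, inv_smul_eq_iff]
  exact e.symm

theorem grow {S : Sp G X Γ} {Δ : Subgroup G} {D : Set X} {C : Γ} (H : Dom S Δ D C) {k : ℕ}
    (α : Fin k × Bool → G) {y0 y1 : X} (h0 : y0 ∈ D) (h1 : y1 ∈ D)
    (ha : ∀ j, α j • S.o ∈ D \ {y0, y1}) (hi : Function.Injective fun j => α j • S.o) :
    ∃ γ : G, ∃ Δ' D' C', Dom S Δ' D' C' ∧ Δ ≤ Δ' ∧ y0 ∈ D' ∧ y1 ∈ D' ∧
      ∀ i, α (i, true) * γ * (α (i, false))⁻¹ ∈ Δ' := by
  classical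
  choose r1 a1 b1 using fun j => H.op _ (ha j).1
  obtain ⟨R1, a2, b2⟩ := lowb r1 a1
  obtain ⟨R2, a3, b3⟩ := lowb (fun p : (Fin k × Bool) × Bool => S.d (α p.1 • S.o)
    (if p.2 then y0 else y1)) fun p h => (ha p.1).2 (by
      rw [S.sep _ _ h]; split_ifs <;> simp)
  obtain ⟨R3, a4, b4⟩ := lowb (fun p : (Fin k × Bool) × (Fin k × Bool) => if p.1 = p.2 then 1 else
    S.d (α p.1 • S.o) (α p.2 • S.o)) fun p h => by
      split_ifs at h with e
      exacts [one_ne_zero h, e (hi (S.sep _ _ h))]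
  obtain ⟨L, L1, hL⟩ := S.lips fun p : (Fin k × Bool) × Bool => if p.2 then α p.1 else (α p.1)⁻¹
  have l1 : ∀ j x y, S.d (α j • x) (α j • y) ≤ L * S.d x y := fun j => hL (j, true)
  have l2 : ∀ j x y, S.d ((α j)⁻¹ • x) ((α j)⁻¹ • y) ≤ L * S.d x y := fun j => hL (j, false)
  have L0 := zero_lt_one.trans_le L1
  have C0 := zero_lt_one.trans_le H.c1
  obtain ⟨R0, a5, b5⟩ := lowb ![R1, R2, R3, S.τ] fun i => by fin_cases i; exacts [a2, a3, a4, S.t0]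
  obtain ⟨γ, r, r0, rR, g2, g3, g4⟩ := S.prox (R0 / L) (div_ne_zero a5 L0.ne')
    (S.τ / (L ^ 3 * C)) (div_ne_zero S.t0 (mul_pos (pow_pos L0 _) C0).ne')
  have gi : γ⁻¹ = γ := inv_eq_of_mul_eq_one_right g2
  let σ : Fin k × Bool → Fin k × Bool := fun j => (j.1, !j.2)
  let s : Fin k × Bool → G := fun j => α (σ j) * γ * (α j)⁻¹
  have hσ : ∀ j, σ (σ j) = j := fun j => by simp [σ]
  let B : Bool → Set X := fun b => {x | if b then S.d S.o x ≤ r else S.d S.o x < r}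
  let U : Fin k × Bool → Set X := fun j => {x | (α j)⁻¹ • x ∈ B j.2}
  let V : Fin k × Bool → Set X := fun j => {x | S.d S.o ((α j)⁻¹ • x) < R0 / L}
  have vb : ∀ j, ∀ x ∈ V j, S.d (α j • S.o) x < R0 := fun j x hx => by
    have := l1 j S.o ((α j)⁻¹ • x)
    rw [smul_inv_smul] at this
    exact this.trans_lt ((lt_div_iff₀' L0).1 hx)
  have uv : ∀ j, U j ⊆ V j := fun j x hx => by
    simp only [U, B, Set.mem_setOf_eq] at hx
    split_ifs at hx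
    exacts [hx.trans_lt rR, hx.trans rR]
  have gp : ∀ j x y, S.d x y < r / L → S.d ((α j)⁻¹ • x) ((α j)⁻¹ • y) < r := fun j x y h =>
    (l2 j x y).trans_lt ((lt_div_iff₀' L0).1 h)
  have ny : ∀ (b : Bool) j, (if b then y0 else y1) ∉ V j := fun b j h =>
    (vb j _ h).not_ge ((b5 1).trans (b3 (j, b)))
  obtain ⟨L', L1', hL'⟩ := S.lips s
  have := pp H (σ := σ) (s := s) hσ (fun j => by simp only [s, hσ, mul_inv_rev, gi, inv_inv, mul_assoc])
    (U := U) (V := V) (ρ := r / L) (ε := L * (S.τ / (L ^ 3 * C) * r * L)) (L := L') ?_ uv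
    (fun j x hx => b1 j x ((vb j x hx).trans_le ((b5 0).trans (b2 j)))) ?_ ?_
    (fun j x y h hx => S.tr hx ((gp j x y h).trans rR)) ?_ hL' L1' ?_ ?_ ?_ h0 (ny true)
  · refine ⟨γ, _, _, _, this, fun g hg => subset_closure (.inl hg), ⟨h0, fun h => ?_⟩,
      ⟨h1, fun h => ?_⟩, fun i => subset_closure (.inr ⟨(i, false), rfl⟩)⟩
    all_goals obtain ⟨j, hj⟩ := Set.mem_iUnion.1 h
    exacts [ny true j (uv j hj), ny false j (uv j hj)]
  · rintro ⟨i, b⟩ x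
    simp only [U, s, σ, B, Set.mem_setOf_eq, mul_smul, inv_smul_smul]
    cases b
    · simpa using g3 _
    · have := g3 (γ • (α (i, true))⁻¹ • x)
      rw [smul_smul γ γ, g2, one_smul] at this
      simp [this]
  · intro i j x hi hj
    by_contra e
    have := (b5 2).trans (b4 (i, j))
    simp only [if_neg e] at this
    exact (S.tr (vb i x (uv i hi)) (S.symm _ _ ▸ vb j x hj)).not_ge this
  · intro j x y h hx
    have := gp j x y h
    simp only [U, B, Set.mem_setOf_eq] at hx ⊢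
    split_ifs at hx ⊢
    exacts [(S.ultra _ _ _).trans (max_le hx this.le), S.tr hx this]
  · intro j x y hx hy
    simp only [s, mul_smul]
    refine (l1 _ _ _).trans ?_
    rw [mul_assoc L, mul_assoc _ L]
    exact mul_le_mul_right ((g4 _ _ (not_lt.1 hx) (not_lt.1 hy)).trans
      (mul_le_mul_right (l2 _ _ _) _)) _
  · exact mul_ne_zero L0.ne' (mul_ne_zero (mul_ne_zero (div_ne_zero S.t0
      (mul_pos (pow_pos L0 _) C0).ne') r0) L0.ne')
  · have := L0.ne'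
    have := C0.ne'
    rw [show L * (S.τ / (L ^ 3 * C) * r * L) * C = S.τ * (r / L) by field_simp]
    exact mul_lt_of_lt_one_left (div_pos (zero_lt_iff.2 r0) L0) S.t1
  · have dl : ∀ x : Γ, x / L ≤ x := fun x => (div_le_iff₀ L0).2 (le_mul_of_one_le_right' L1)
    exact ((dl _).trans rR.le).trans ((dl _).trans (b5 3))

theorem extend {S : Sp G X Γ} {Δ : Subgroup G} {y0 y1 : X}
    (H : ∃ D C, Dom S Δ D C ∧ y0 ∈ D ∧ y1 ∈ D) {k : ℕ} (a b : Fin k → G) :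
    ∃ Δ' : Subgroup G, (∃ D C, Dom S Δ' D C ∧ y0 ∈ D ∧ y1 ∈ D) ∧ Δ ≤ Δ' ∧
      ((∀ i j, (a i)⁻¹ * a j ∈ Δ → i = j) → (∀ i j, (b i)⁻¹ * b j ∈ Δ → i = j) →
        ∃ γ : G, ∀ i, (b i)⁻¹ * γ * a i ∈ Δ') := by
  by_cases h : (∀ i j, (a i)⁻¹ * a j ∈ Δ → i = j) ∧ ∀ i j, (b i)⁻¹ * b j ∈ Δ → i = j
  swap
  · exact ⟨Δ, H, le_rfl, fun u v => absurd ⟨u, v⟩ h⟩
  obtain ⟨D, C, H, h0, h1⟩ := H
  obtain ⟨p, δ, p1, p2⟩ := place H a h.1 (Y := {y0, y1}) (Set.toFinite _)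
  obtain ⟨q, ζ, q1, q2⟩ := place H b h.2 (Y := {y0, y1} ∪ Set.range fun i => (δ i * (a i)⁻¹) • p)
    ((Set.toFinite _).union (Set.finite_range _))
  have tr : ∀ p : X, ∃ g : G, g • S.o = p := fun p => by
    obtain ⟨u, -, hu⟩ := (S.inf p 1 one_ne_zero).exists_notMem_finite (Set.finite_singleton S.o)
    obtain ⟨w, -, hw⟩ := (S.inf p 1 one_ne_zero).exists_notMem_finite (Set.finite_singleton p)
    obtain ⟨g, e, -⟩ := S.two S.o u p w (Ne.symm hu) (Ne.symm hw)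
    exact ⟨g, e⟩
  obtain ⟨g, rfl⟩ := tr p
  obtain ⟨f, rfl⟩ := tr q
  obtain ⟨γ, Δ', D', C', e1, e2, e3, e4, e5⟩ := grow H
    (fun j : Fin k × Bool => if j.2 then ζ j.1 * (b j.1)⁻¹ * f else δ j.1 * (a j.1)⁻¹ * g) h0 h1
    (fun ⟨i, c⟩ => by
      cases c
      · show (δ i * (a i)⁻¹ * g) • S.o ∈ _
        rw [mul_smul _ g]
        exact (p1 i).2
      · show (ζ i * (b i)⁻¹ * f) • S.o ∈ _
        rw [mul_smul _ f]
        exact ⟨(q1 i).2.1, fun h => (q1 i).2.2 (.inl h)⟩)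
    (by
      rintro ⟨i, c⟩ ⟨j, e⟩ h
      cases c <;> cases e <;> simp only [Bool.false_eq_true, if_false, if_true,
        mul_smul _ f, mul_smul _ g] at h
      · rw [p2 h]
      · exact absurd (.inr ⟨i, h⟩) (q1 j).2.2
      · exact absurd (.inr ⟨j, h.symm⟩) (q1 i).2.2
      · rw [q2 h])
  refine ⟨Δ', ⟨D', C', e1, e3, e4⟩, e2, fun _ _ => ⟨f * γ * g⁻¹, fun i => ?_⟩⟩
  have := mul_mem (mul_mem (inv_mem (e2 (q1 i).1)) (e5 i)) (e2 (p1 i).1)
  simpa [mul_assoc] using this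

theorem ht [Countable G] (S : Sp G X Γ) : ∃ Δ : Subgroup G, FaithfulSMul G (G ⧸ Δ) ∧
    ∀ k : ℕ, ∀ e f : Fin k ↪ G ⧸ Δ, ∃ g : G, ∀ i, g • e i = f i := by
  obtain ⟨y0, -, h0⟩ := (S.inf S.o 1 one_ne_zero).exists_notMem_finite (Set.finite_singleton S.o)
  obtain ⟨t, ht⟩ := exists_surjective_nat (Σ k : ℕ, (Fin k → G) × (Fin k → G))
  let P : Subgroup G → Prop := fun Δ => ∃ D C, Dom S Δ D C ∧ y0 ∈ D ∧ S.o ∈ D
  choose nx n1 n2 n3 using fun (Δ : {Δ // P Δ}) (n : ℕ) => extend Δ.2 (t n).2.1 (t n).2.2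
  have p0 : P ⊥ := ⟨Set.univ, 1, ⟨le_rfl, fun _ _ => ⟨1, one_ne_zero, fun _ _ => trivial⟩,
    fun _ h _ _ _ => h, fun _ h _ _ _ _ => by simp [mem_bot.1 h], fun x r hr =>
      ⟨x, by simpa [S.self] using zero_lt_iff.2 hr, 1, one_mem _, trivial⟩⟩, trivial, trivial⟩
  let K : ℕ → {Δ // P Δ} := fun n => Nat.rec ⟨⊥, p0⟩ (fun n Δ => ⟨nx Δ n, n1 Δ n⟩) n
  have mono : Monotone fun n => (K n).1 := monotone_nat_of_le_succ fun n => n2 (K n) n
  refine ⟨⨆ n, (K n).1, ⟨fun {g h} e => ?_⟩, fun k e f => ?_⟩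
  · by_contra ne
    obtain ⟨z, -, hz⟩ := (S.inf S.o 1 one_ne_zero).exists_notMem_finite
      (S.fin (g⁻¹ * h) fun e => ne (inv_mul_eq_one.1 e))
    obtain ⟨a, a1, a2⟩ := S.two y0 S.o z _ h0 (Ne.symm hz)
    have := e (a : G ⧸ ⨆ n, (K n).1)
    rw [MulAction.Quotient.smul_coe, MulAction.Quotient.smul_coe, QuotientGroup.eq,
      mem_iSup_of_directed mono.directed_le] at this
    obtain ⟨n, hn⟩ := this
    obtain ⟨D, C, H, u, v⟩ := (K n).2
    have e2 : ((g • a)⁻¹ * h • a) • y0 = S.o := by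
      simp only [smul_eq_mul, mul_inv_rev, mul_smul, a1]
      rw [inv_smul_eq_iff, a2, mul_smul]
    rw [H.wan _ hn _ u (e2 ▸ v), one_smul] at e2
    exact h0 e2
  · obtain ⟨n, hn⟩ := ht ⟨k, fun i => (e i).out, fun i => (f i).out⟩
    have := n3 (K n) n
    rw [hn] at this
    have inj : ∀ e : Fin k ↪ G ⧸ ⨆ n, (K n).1, ∀ i j, (e i).out⁻¹ * (e j).out ∈ (K n).1 → i = j :=
      fun e i j h => e.injective (by
        rw [← (e i).out_eq', ← (e j).out_eq', QuotientGroup.eq]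
        exact le_iSup (fun n => (K n).1) n h)
    obtain ⟨γ, hγ⟩ := this (inj e) (inj f)
    refine ⟨γ, fun i => ?_⟩
    rw [← (e i).out_eq', ← (f i).out_eq', MulAction.Quotient.smul_coe, eq_comm, QuotientGroup.eq]
    simpa [mul_assoc] using le_iSup (fun n => (K n).1) (n + 1) (hγ i)

end Pool.Agent.H.MP_57df8f_al
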