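import Pool.Agent.H.MP_57df8f_al.B

set_option autoImplicit false

namespace Pool.Agent.H.MP_57df8f_al

open Matrix Projectivization
open scoped LinearAlgebra.Projectivization

variable {F Γ : Type} [Field F] [LinearOrderedCommGroupWithZero Γ]

abbrev PG (F : Type) [Field F] := ProjGenLinGroup (Fin 2) F
abbrev PL (F : Type) [Field F] := ℙ F (Fin 2 → F)

def dt (u w : Fin 2 → F) : F := u 0 * w 1 - u 1 * w 0

theorem nz {u : Fin 2 → F} (h : u ≠ 0) : u 0 ≠ 0 ∨ u 1 ≠ 0 := by
  by_contra e
  push Not at e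
  exact h (by ext i; fin_cases i; exacts [e.1, e.2])

theorem mk_eq {u w : Fin 2 → F} (hu : u ≠ 0) (hw : w ≠ 0) : mk F u hu = mk F w hw ↔ dt u w = 0 := by
  rw [mk_eq_mk_iff']
  constructor
  · rintro ⟨a, rfl⟩
    simp only [dt, Pi.smul_apply, smul_eq_mul]; ring
  · intro h
    rw [dt, sub_eq_zero] at h
    rcases nz hw with e | e
    · refine ⟨u 0 / w 0, ?_⟩
      ext i
      fin_cases i <;> simp <;> field_simp
      exact h.trans (mul_comm _ _)
    · refine ⟨u 1 / w 1, ?_⟩
      ext i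
      fin_cases i <;> simp <;> field_simp
      exact h.symm.trans (mul_comm _ _)

def std (F : Type) [Field F] : Fin 3 → PL F :=
  ![mk F ![1, 0] (by simp), mk F ![0, 1] (by simp), mk F ![1, 1] (by simp)]

theorem std_inj : Function.Injective (std F) := fun i j h => by
  fin_cases i <;> fin_cases j <;> simp [std, mk_eq, dt] at h ⊢

theorem three0 {x y z : PL F} (a : x ≠ y) (b : x ≠ z) (c : y ≠ z) :
    ∃ g : PG F, g • std F 0 = x ∧ g • std F 1 = y ∧ g • std F 2 = z := by
  induction x using ind with | h u hu =>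
  induction y using ind with | h w hw =>
  induction z using ind with | h t ht =>
  rw [Ne, mk_eq] at a b c
  refine ⟨.mk (GeneralLinearGroup.mkOfDetNeZero
    !![dt w t * u 0, -dt u t * w 0; dt w t * u 1, -dt u t * w 1] ?_), ?_, ?_, ?_⟩
  · rw [det_fin_two_of, show dt w t * u 0 * (-dt u t * w 1) - -dt u t * w 0 * (dt w t * u 1) =
      -(dt w t * dt u t * dt u w) by simp only [dt]; ring]
    simp [a, b, c]
  all_goals simp [std, mk_eq, dt]; ring

theorem three {x y z x' y' z' : PL F} (a : x ≠ y) (b : x ≠ z) (c : y ≠ z) (a' : x' ≠ y')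
    (b' : x' ≠ z') (c' : y' ≠ z') : ∃ g : PG F, g • x = x' ∧ g • y = y' ∧ g • z = z' := by
  obtain ⟨g, rfl, rfl, rfl⟩ := three0 a b c
  obtain ⟨h, rfl, rfl, rfl⟩ := three0 a' b' c'
  exact ⟨h * g⁻¹, by simp [mul_smul]⟩

theorem fix0 {g : PG F} (h : ∀ i, g • std F i = std F i) : g = 1 := by
  induction g using ProjGenLinGroup.induction_on with | mk g =>
  have h0 := h 0
  have h1 := h 1
  have h2 := h 2
  simp [std, mk_eq, dt] at h0 h1 h2
  have hd := g.det.ne_zero
  rw [GeneralLinearGroup.val_det_apply, det_fin_two, h0, mul_zero, sub_zero] at hd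
  rw [← ProjGenLinGroup.mk_scalar (Units.mk0 _ (left_ne_zero_of_mul hd))]
  congr 1
  ext i j
  fin_cases i <;> fin_cases j <;> simp [h0, h1]
  linear_combination -h2 + h1 - h0

theorem fix3 {g : PG F} {x y z : PL F} (a : x ≠ y) (b : x ≠ z) (c : y ≠ z) (hx : g • x = x)
    (hy : g • y = y) (hz : g • z = z) : g = 1 := by
  obtain ⟨h, rfl, rfl, rfl⟩ := three0 a b c
  have : h⁻¹ * g * h = 1 := fix0 fun i => by
    rw [mul_smul, mul_smul, inv_smul_eq_iff]
    fin_cases i <;> assumption
  simpa [mul_assoc, inv_mul_eq_one] using congrArg (fun t => h * t * h⁻¹) this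

theorem third (x y : PL F) : ∃ z, x ≠ z ∧ y ≠ z := by
  by_contra h
  push Not at h
  have e1 : std F 0 ≠ std F 1 := std_inj.ne (by decide)
  have e2 : std F 0 ≠ std F 2 := std_inj.ne (by decide)
  have e3 : std F 1 ≠ std F 2 := std_inj.ne (by decide)
  by_cases a : x = std F 0
  · exact e3 ((h _ (a ▸ e1)).symm.trans (h _ (a ▸ e2)))
  · by_cases b : x = std F 1
    · exact e2 ((h _ a).symm.trans (h _ (b ▸ e3)))
    · exact e1 ((h _ a).symm.trans (h _ b))

variable (v : Valuation F Γ)

def nm (u : Fin 2 → F) : Γ := max (v (u 0)) (v (u 1))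

def dv (u w : Fin 2 → F) : Γ := v (dt u w) / (nm v u * nm v w)

theorem nm_pos {u : Fin 2 → F} (h : u ≠ 0) : 0 < nm v u := by
  rcases nz h with e | e
  exacts [lt_max_of_lt_left (v.pos_iff.2 e), lt_max_of_lt_right (v.pos_iff.2 e)]

theorem nm_le (u : Fin 2 → F) (i : Fin 2) : v (u i) ≤ nm v u := by
  fin_cases i
  exacts [le_max_left _ _, le_max_right _ _]

noncomputable def dd (x y : PL F) : Γ := dv v x.rep y.rep

theorem dd_mk {u w : Fin 2 → F} (hu : u ≠ 0) (hw : w ≠ 0) :
    dd v (mk F u hu) (mk F w hw) = dv v u w := by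
  obtain ⟨a, ha⟩ := exists_smul_eq_mk_rep F u hu
  obtain ⟨b, hb⟩ := exists_smul_eq_mk_rep F w hw
  have n : ∀ (a : Fˣ) u, nm v (a • u) = v a * nm v u := fun a u => by
    simp [nm, Units.smul_def, mul_max]
  have e : dt (a • u) (b • w) = a * b * dt u w := by simp [dt, Units.smul_def]; ring
  have := (v.pos_iff.2 a.ne_zero).ne'
  have := (v.pos_iff.2 b.ne_zero).ne'
  rw [dd, ← ha, ← hb, dv, n, n, e, dv, map_mul, map_mul]
  field_simp

theorem lin (a b c d : F) : v (a * b + c * d) ≤ max (v a * v b) (v c * v d) := by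
  simpa using v.map_add (a * b) (c * d)

theorem dt_smul (g : GL (Fin 2) F) (u w : Fin 2 → F) :
    dt (g • u) (g • w) = g.val.det * dt u w := by
  simp [dt, det_fin_two]; ring

theorem nm_smul (g : GL (Fin 2) F) : ∃ M, ∀ u, nm v u ≤ M * nm v (g • u) := by
  obtain ⟨M, -, h⟩ := upb fun p : Fin 2 × Fin 2 => v ((g⁻¹).val p.1 p.2)
  refine ⟨M, fun u => ?_⟩
  conv_lhs => rw [← inv_smul_smul g u]
  generalize g • u = w
  have : ∀ i, v ((g⁻¹).val i 0 * w 0 + (g⁻¹).val i 1 * w 1) ≤ M * nm v w := fun i =>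
    (lin v _ _ _ _).trans (max_le (mul_le_mul' (h (i, 0)) (nm_le v w 0))
      (mul_le_mul' (h (i, 1)) (nm_le v w 1)))
  rw [GeneralLinearGroup.fin_two_smul]
  exact max_le (this 0) (this 1)

theorem dd_lip (g : PG F) : ∃ L, ∀ x y, dd v (g • x) (g • y) ≤ L * dd v x y := by
  induction g using ProjGenLinGroup.induction_on with | mk g =>
  obtain ⟨M, h⟩ := nm_smul v g
  refine ⟨v g.val.det * M * M, ind fun u hu => ind fun w hw => ?_⟩
  have a := nm_pos v hu
  have b := nm_pos v hw
  have c := nm_pos v ((smul_ne_zero_iff_ne g).2 hu)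
  have d := nm_pos v ((smul_ne_zero_iff_ne g).2 hw)
  rw [PGL.mk_smul_mk, PGL.mk_smul_mk, dd_mk, dd_mk, dv, dv, dt_smul, map_mul, ← mul_div_assoc,
    div_le_div_iff₀ (mul_pos c d) (mul_pos a b)]
  refine (mul_le_mul_right (mul_le_mul' (h u) (h w)) _).trans (le_of_eq ?_)
  ac_rfl

theorem dd_o (u : Fin 2 → F) (hu : u ≠ 0) : dd v (std F 1) (mk F u hu) = v (u 0) / nm v u := by
  simp [std, dd_mk, dv, dt, nm]

noncomputable def sp (π : F) (h0 : π ≠ 0) (h1 : v π < 1) (ar : ∀ r ≠ 0, ∃ n : ℕ, v π ^ n < r) :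
    Sp (PG F) (PL F) Γ where
  d := dd v
  o := std F 1
  τ := v π
  self := fun x => by simp [dd, dv, dt, mul_comm]
  sep := ind fun u hu => ind fun w hw h => by
    rw [dd_mk, dv, div_eq_zero_iff, map_eq_zero] at h
    exact (mk_eq hu hw).2 (h.resolve_right (mul_pos (nm_pos v hu) (nm_pos v hw)).ne')
  symm := fun x y => by
    rw [dd, dd, dv, dv, mul_comm, ← v.map_neg]
    simp [dt, mul_comm]
  ultra := ind fun u hu => ind fun w hw => ind fun z hz => by
    have a := nm_pos v hu
    have b := nm_pos v hw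
    have c := nm_pos v hz
    have k : ∀ i, v (dt u z) * v (w i) ≤ max (v (dt u w) * nm v z) (v (dt w z) * nm v u) :=
      fun i => by
        rw [← map_mul, show dt u z * w i = dt u w * z i + dt w z * u i by
          fin_cases i <;> simp [dt] <;> ring]
        exact (lin v _ _ _ _).trans (max_le_max (mul_le_mul_right (nm_le v z i) _)
          (mul_le_mul_right (nm_le v u i) _))
    have k2 := max_le (k 0) (k 1)
    rw [← mul_max, ← nm] at k2
    rw [dd_mk, dd_mk, dd_mk, dv, dv, dv, le_max_iff, div_le_div_iff₀ (mul_pos a c) (mul_pos a b),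
      div_le_div_iff₀ (mul_pos a c) (mul_pos b c)]
    rcases le_max_iff.1 k2 with k | k
    · left
      simpa [mul_left_comm] using mul_le_mul_right k (nm v u)
    · right
      simpa [mul_assoc] using mul_le_mul_left k (nm v z)
  le1 := fun x y => by
    refine div_le_one_of_le₀ ?_ zero_le'
    refine (v.map_sub _ _).trans (max_le ?_ ?_) <;> rw [map_mul] <;>
      exact mul_le_mul' (nm_le v _ _) (nm_le v _ _)
  lip := dd_lip v
  t0 := (v.pos_iff.2 h0).ne'
  t1 := h1
  arch := ar
  inf := fun x r hr => by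
    obtain ⟨y, a, -⟩ := third x x
    obtain ⟨z, b, c⟩ := third x y
    obtain ⟨g, -, rfl, -⟩ := three0 a.symm c b
    obtain ⟨L, hL⟩ := dd_lip v g
    have L0 := zero_lt_one.trans_le (le_max_left 1 L)
    obtain ⟨n, hn⟩ := ar (r / max 1 L) (div_ne_zero hr L0.ne')
    refine Set.infinite_of_injective_forall_mem
      (f := fun m : ℕ => g • mk F ![π ^ (n + m), 1] (by simp)) (fun i j e => ?_) fun m => ?_
    · have := congrArg v (sub_eq_zero.1 (by
        simpa [dt] using (mk_eq _ _).1 (MulAction.injective g e)) : π ^ (n + i) = π ^ (n + j))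
      rw [map_pow, map_pow] at this
      simpa using pow_right_injective₀ (v.pos_iff.2 h0) h1.ne this
    · refine ((hL _ _).trans ?_).trans_lt ((lt_div_iff₀' L0).1 hn)
      refine mul_le_mul' (le_max_right _ _) ?_
      rw [dd_o, div_le_iff₀ (nm_pos v (by simp))]
      refine le_trans ?_ (le_mul_of_one_le_right' (by simp [nm]))
      simpa [pow_add] using mul_le_of_le_one_right' (pow_le_one' h1.le m)
  fin := fun g hg => by
    by_contra h
    obtain ⟨x, hx⟩ := Set.Infinite.nonempty h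
    obtain ⟨y, hy, a⟩ := Set.Infinite.exists_notMem_finite h (Set.finite_singleton x)
    obtain ⟨z, hz, b⟩ := Set.Infinite.exists_notMem_finite h (Set.toFinite {x, y})
    simp only [Set.mem_insert_iff, Set.mem_singleton_iff, not_or] at a b
    exact hg (fix3 (Ne.symm a) (Ne.symm b.1) (Ne.symm b.2) hx hy hz)
  two := fun x y x' y' a b => by
    obtain ⟨z, c, d⟩ := third x y
    obtain ⟨z', c', d'⟩ := third x' y'
    obtain ⟨g, e, f, -⟩ := three a c d b c' d'
    exact ⟨g, e, f⟩
  prox := fun R hR η hη => by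
    obtain ⟨n, hn⟩ := ar (min (min R 1) (η * R * R)) (lt_min (lt_min (zero_lt_iff.2 hR) zero_lt_one)
      (zero_lt_iff.2 (mul_ne_zero (mul_ne_zero hη hR) hR))).ne'
    rw [← map_pow] at hn
    have c0 := pow_ne_zero n h0
    generalize π ^ n = c at hn c0
    have r0 := v.pos_iff.2 c0
    obtain ⟨⟨n1, n2⟩, n3⟩ : (v c < R ∧ v c < 1) ∧ v c < η * R * R := by simpa using hn
    let g := GeneralLinearGroup.mkOfDetNeZero !![0, c * c; 1, 0] (by simp [det_fin_two, c0])
    have gs : ∀ u : Fin 2 → F, g • u = ![c * c * u 1, u 0] := fun u => by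
      simp [g]
    refine ⟨.mk g, v c, r0.ne', n1, fix0 fun i => ?_, ind fun u hu => ?_,
      ind fun u hu => ind fun w hw a b => ?_⟩
    · rw [mul_smul]
      induction std F i using ind with | h u hu =>
      simp only [PGL.mk_smul_mk, mk_eq, gs, dt]
      simp; ring
    · rw [PGL.mk_smul_mk, dd_o, dd_o, div_lt_iff₀ (nm_pos v hu),
        lt_div_iff₀ (nm_pos v ((smul_ne_zero_iff_ne g).2 hu)), gs]
      simp only [nm, cons_val_zero, cons_val_one, map_mul, mul_max, lt_max_iff, max_lt_iff,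
        mul_assoc, mul_lt_mul_iff_right₀ r0]
      constructor
      · rintro (h | h)
        · exact absurd h (mul_le_of_le_one_left' n2.le).not_gt
        · exact ⟨mul_lt_of_lt_one_left (zero_lt_iff.2 fun e => by simp [e] at h) n2, h⟩
      · exact fun h => .inr h.2
    · have p := nm_pos v hu
      have q := nm_pos v hw
      rw [dd_o, le_div_iff₀ p] at a
      rw [dd_o, le_div_iff₀ q] at b
      have k : ∀ u : Fin 2 → F, v (u 0) ≤ nm v (g • u) := fun u => by simp [gs, nm]
      rw [PGL.mk_smul_mk, PGL.mk_smul_mk, dd_mk, dd_mk, dv, dv, dt_smul, ← mul_div_assoc,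
        div_le_div_iff₀ (mul_pos (nm_pos v ((smul_ne_zero_iff_ne g).2 hu))
          (nm_pos v ((smul_ne_zero_iff_ne g).2 hw))) (mul_pos p q)]
      refine le_trans ?_ (mul_le_mul_right (mul_le_mul' (a.trans (k u)) (b.trans (k w))) _)
      have : v g.val.det = v c * v c := by
        simp [g, det_fin_two]
      rw [map_mul, this]
      calc _ = v c * (v c * v (dt u w) * (nm v u * nm v w)) := by ac_rfl
        _ ≤ η * R * R * _ := mul_le_mul_left n3.le _
        _ = _ := by ac_rfl

theorem val0 (A : Type) [CommRing A] [IsDomain A] [WfDvdMonoid A] [Algebra A F] [FaithfulSMul A F]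
    [Algebra.IsAlgebraic A F] {t : A} (ht : Prime t) : ∃ O : ValuationSubring F, ∃ π : F, π ≠ 0 ∧
      O.valuation π < 1 ∧ ∀ r ≠ 0, ∃ n : ℕ, O.valuation π ^ n < r := by
  have inj := FaithfulSMul.algebraMap_injective A F
  have : (Ideal.span {t}).IsPrime := (Ideal.span_singleton_prime ht.ne_zero).2 ht
  let f : Localization.AtPrime (Ideal.span {t}) →+* F := IsLocalization.lift
    (M := (Ideal.span {t}).primeCompl) (g := algebraMap A F) fun y => IsUnit.mk0 _ fun h =>
      y.2 (by rw [(map_eq_zero_iff _ inj).1 h]; exact zero_mem _)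
  obtain ⟨O, h, l⟩ := IsLocalRing.exists_factor_valuationRing f
  have e : ∀ a, f (algebraMap A _ a) = algebraMap A F a := fun a => IsLocalization.lift_eq _ _
  have m : ∀ a, algebraMap A F a ∈ O := fun a => e a ▸ h _
  have u : ∀ a, O.valuation (algebraMap A F a) = 1 ↔ ¬ t ∣ a := fun a => by
    rw [← Ideal.mem_span_singleton, ← e]
    refine (O.valuation_eq_one_iff ⟨_, h _⟩).symm.trans ?_
    exact (isUnit_map_iff (f.codRestrict O.toSubring h) _).trans
      (IsLocalization.AtPrime.isUnit_to_map_iff _ _ _)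
  have t0 : algebraMap A F t ≠ 0 := (map_ne_zero_iff _ inj).2 ht.ne_zero
  have t1 : O.valuation (algebraMap A F t) < 1 :=
    ((O.valuation_le_one_iff _).2 (m t)).lt_of_ne fun h => (u t).1 h dvd_rfl
  refine ⟨O, _, t0, t1, fun r hr => ?_⟩
  obtain ⟨x, rfl⟩ := O.valuation_surjective r
  obtain ⟨y, hy, a, a0, ea⟩ := (Algebra.IsAlgebraic.isAlgebraic (R := A) x).exists_nonzero_eq_adjoin_mul
    (mem_nonZeroDivisors_of_ne_zero fun h => hr (by rw [h, map_zero]))
  by_cases hx : x ∈ O
  · have y1 : y ∈ O := by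
      refine Algebra.adjoin_induction (fun _ h => h ▸ hx) m (fun _ _ _ _ => add_mem)
        (fun _ _ _ _ => mul_mem) hy
    obtain ⟨n, b, b1, rfl⟩ := WfDvdMonoid.max_power_factor' a0 ht.not_unit
    have := congrArg O.valuation ea
    rw [map_mul, map_mul, map_mul, map_pow, map_pow, (u b).2 b1, mul_one] at this
    refine ⟨n + 1, lt_of_lt_of_le ?_ (this.ge.trans
      (mul_le_of_le_one_right' ((O.valuation_le_one_iff _).2 y1)))⟩
    rw [pow_succ]
    exact mul_lt_of_lt_one_right (pow_pos (O.valuation.pos_iff.2 t0) n) t1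
  · exact ⟨0, by rwa [pow_zero, ← not_le, O.valuation_le_one_iff]⟩

theorem val1 (R : Type) [CommRing R] [IsDomain R] [UniqueFactorizationMonoid R] [Algebra R F]
    {ι : Type} {x : ι → F} (hx : IsTranscendenceBasis R x) {t : MvPolynomial ι R} (ht : Prime t) :
    ∃ O : ValuationSubring F, ∃ π : F, π ≠ 0 ∧
      O.valuation π < 1 ∧ ∀ r ≠ 0, ∃ n : ℕ, O.valuation π ^ n < r := by
  have := hx.isAlgebraic
  have := hx.1.aevalEquiv.toMulEquiv.uniqueFactorizationMonoid inferInstance
  exact val0 (Algebra.adjoin R (Set.range x)) ((MulEquiv.prime_iff hx.1.aevalEquiv).2 ht)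

end Pool.Agent.H.MP_57df8f_al
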