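import Mathlib

set_option autoImplicit false

namespace Pool.Agent.H.MP_57df8f_al

open Subgroup

variable {G Ω : Type} [Group G] [MulAction G Ω]

def cm (a b : G) : G := (b * a)⁻¹ * (a * b)

def K1 (G : Type) [Group G] : Prop := ∀ x : G, x ≠ 1 → ∃ C : Subgroup G,
  (∀ a ∈ C, ∀ b ∈ C, a * b = b * a) ∧ ∀ g h, g * x = x * g → h * x = x * h → g ∈ C ∨ h ∈ C ∨ g⁻¹ * h ∈ C

def K2 (G : Type) [Group G] : Prop := ∀ A T : Subgroup G, A ≠ ⊥ → (∀ a ∈ A, ∀ b ∈ A, a * b = b * a) →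
  (∀ g ∈ T, ∀ a ∈ A, g * a * g⁻¹ ∈ A) →
  (∀ a ∈ T, ∀ b ∈ T, ∀ c ∈ T, ∀ d ∈ T, cm (cm a b) (cm c d) = 1) ∨
    ∃ x ∈ A, ∃ y ∈ A, ∀ z, z * x = x * z → z * y = y * z → z = 1 ∨ z = x ∨ z = y ∨ z = x * y

theorem inj4 {a b c d : Ω} (h1 : a ≠ b) (h2 : a ≠ c) (h3 : a ≠ d) (h4 : b ≠ c) (h5 : b ≠ d)
    (h6 : c ≠ d) : Function.Injective ![a, b, c, d] := fun i j h => by
  fin_cases i <;> fin_cases j <;> simp_all [eq_comm]

theorem sharp (k1 : K1 G) [Infinite Ω] (tr : ∀ e f : Fin 4 ↪ Ω, ∃ g : G, ∀ i, g • e i = f i)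
    (sh : ∀ (e : Fin 4 ↪ Ω) (g : G), (∀ i, g • e i = e i) → g = 1) : False := by
  have inf : ∀ g : G, {z : Ω | g • z = z}.Infinite → g = 1 := fun g h =>
    sh (Fin.valEmbedding.trans ((h.natEmbedding _).trans (.subtype _))) g
      fun i => (h.natEmbedding _ i).2
  let e : Fin 4 ↪ Ω := Fin.valEmbedding.trans (Infinite.natEmbedding Ω)
  obtain ⟨x, hx⟩ := tr e ((Equiv.swap (0 : Fin 4) 1).toEmbedding.trans e)
  simp only [Function.Embedding.trans_apply, Equiv.coe_toEmbedding] at hx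
  have xx : ∀ z : Ω, x • x • z = z := fun z => by
    rw [smul_smul, sh e (x * x) fun i => by rw [mul_smul, hx, hx, Equiv.swap_apply_self], one_smul]
  have x1 : x ≠ 1 := fun h => by
    have := hx 0
    rw [h, one_smul] at this
    exact absurd (e.injective this) (by decide)
  have x2 : x • e 2 = e 2 := hx 2
  have x3 : x • e 3 = e 3 := hx 3
  have cmm : ∀ (u f : Fin 4 → Ω) (σ : Fin 4 → Fin 4), Function.Injective u → Function.Injective f →
      (∀ i, x • u i = u (σ i)) → (∀ i, x • f i = f (σ i)) →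
      ∃ g : G, (∀ i, g • u i = f i) ∧ g * x = x * g := fun u f σ a b c d => by
    obtain ⟨g, hg⟩ := tr ⟨u, a⟩ ⟨f, b⟩
    refine ⟨g, hg, (inv_mul_eq_one.1 (sh ⟨u, a⟩ _ fun i => ?_))⟩
    simp only [Function.Embedding.coeFn_mk] at hg ⊢
    rw [mul_smul, inv_smul_eq_iff, mul_smul, mul_smul, hg, c, d, hg]
  have e23 : e 2 ≠ e 3 := e.injective.ne (by decide)
  have t1 : ∀ z z' : Ω, x • z ≠ z → x • z' ≠ z' → ∃ g : G, g • z = z' ∧ g * x = x * g := by
    have : ∀ z, x • z ≠ z → Function.Injective ![z, x • z, e 2, e 3] := fun z h => by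
      have a : ∀ w, x • w = w → z ≠ w ∧ x • z ≠ w := fun w hw =>
        ⟨fun q => h (q ▸ hw), fun q => h (by rw [q, ← xx z, q, hw])⟩
      exact inj4 h.symm (a _ x2).1 (a _ x3).1 (a _ x2).2 (a _ x3).2 e23
    intro z z' a b
    obtain ⟨g, c, d⟩ := cmm _ _ ![1, 0, 2, 3] (this z a) (this z' b)
      (fun i => by fin_cases i <;> simp [xx, x2, x3]) (fun i => by fin_cases i <;> simp [xx, x2, x3])
    exact ⟨g, c 0, d⟩
  have t2 : ∀ z w w' : Ω, x • z ≠ z → (x • w ≠ w ∧ w ≠ z ∧ w ≠ x • z) →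
      (x • w' ≠ w' ∧ w' ≠ z ∧ w' ≠ x • z) → ∃ g : G, g • z = z ∧ g • w = w' ∧ g * x = x * g := by
    have : ∀ z w : Ω, x • z ≠ z → (x • w ≠ w ∧ w ≠ z ∧ w ≠ x • z) →
        Function.Injective ![z, x • z, w, x • w] := fun z w h ⟨a, b, c⟩ => by
      have d : z ≠ x • w := fun q => c (by rw [q, xx])
      exact inj4 h.symm b.symm d c.symm (fun q => b (MulAction.injective x q).symm) a.symm
    intro z w w' a b c
    obtain ⟨g, c, d⟩ := cmm _ _ ![1, 0, 3, 2] (this z w a b) (this z w' a c)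
      (fun i => by fin_cases i <;> simp [xx]) (fun i => by fin_cases i <;> simp [xx])
    exact ⟨g, c 0, c 2, d⟩
  have nf : {z : Ω | x • z ≠ z}.Infinite := Set.infinite_of_finite_compl (by
    simpa [Set.compl_setOf] using not_not.1 (mt (inf x) x1))
  obtain ⟨C, c1, c2⟩ := k1 x x1
  obtain ⟨z, z1, z2⟩ : ∃ z : Ω, x • z ≠ z ∧ {w | ∃ g ∈ C, g • z = w}.Infinite := by
    obtain ⟨a, ha⟩ := nf.nonempty
    by_contra h
    push Not at h
    by_cases q : ∃ g, g * x = x * g ∧ g ∉ C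
    · obtain ⟨g, g1, g2⟩ := q
      refine nf (((h a ha).union (h (g • a) fun q => ha ?_)).subset fun w hw => ?_)
      · rw [smul_smul, ← g1, mul_smul] at q
        exact MulAction.injective g q
      · obtain ⟨f, f1, f2⟩ := t1 a w ha hw
        rcases c2 f⁻¹ g⁻¹ (Commute.inv_left f2) (Commute.inv_left g1) with q | q | q
        · exact .inl ⟨f, inv_mem_iff.1 q, f1⟩
        · exact absurd (inv_mem_iff.1 q) g2
        · exact .inr ⟨_, q, by simpa [mul_smul] using f1⟩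
    · push Not at q
      refine nf ((h a ha).subset fun w hw => ?_)
      obtain ⟨f, f1, f2⟩ := t1 a w ha hw
      exact ⟨f, q f f2, f1⟩
  have st : ∀ g ∈ C, g • z = z → g = 1 := fun g a b => inf g (z2.mono (by
    rintro _ ⟨f, c, rfl⟩
    show g • f • z = f • z
    rw [smul_smul, c1 g a f c, mul_smul, b]))
  obtain ⟨u, u1, u2⟩ := nf.exists_notMem_finite (Set.toFinite {z, x • z})
  obtain ⟨v, v1, v2⟩ := nf.exists_notMem_finite (Set.toFinite {z, x • z, u})
  obtain ⟨w, w1, w2⟩ := nf.exists_notMem_finite (Set.toFinite {z, x • z, u, v})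
  simp only [Set.mem_insert_iff, Set.mem_singleton_iff, not_or] at u2 v2 w2
  obtain ⟨g, g1, g2, g3⟩ := t2 z u v z1 ⟨u1, u2⟩ ⟨v1, v2.1, v2.2.1⟩
  obtain ⟨h, h1, h2, h3⟩ := t2 z u w z1 ⟨u1, u2⟩ ⟨w1, w2.1, w2.2.1⟩
  rcases c2 g h g3 h3 with q | q | q
  · rw [st g q g1, one_smul] at g2
    exact v2.2.2 g2.symm
  · rw [st h q h1, one_smul] at h2
    exact w2.2.2.1 h2.symm
  · rw [inv_mul_eq_one.1 (st _ q (by rw [mul_smul, h1, inv_smul_eq_iff, g1])), h2] at g2
    exact w2.2.2.2 g2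

theorem frat (k2 : K2 G) (lf : ∀ s : Set G, s.Finite → Finite (closure s)) (e : Fin 4 ↪ Ω)
    (tr : ∀ σ : Equiv.Perm (Fin 4), ∃ g : G, ∀ i, g • e i = e (σ i)) {n : G} (n1 : n ≠ 1)
    (hn : ∀ i, n • e i = e i) : False := by
  classical
  choose s hs using tr
  let Z : G → Equiv.Perm (Fin 4) → Prop := fun g σ => ∀ i, g • e i = e (σ i)
  have zm : ∀ {g h σ τ}, Z g σ → Z h τ → Z (g * h) (σ * τ) := fun a b i => by
    rw [mul_smul, b, a]; rfl
  have zi : ∀ {g σ}, Z g σ → Z g⁻¹ σ⁻¹ := fun {g σ} a i => by rw [inv_smul_eq_iff, a]; simp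
  have zc : ∀ {g h σ τ}, Z g σ → Z h τ → Z (cm g h) (cm σ τ) := fun a b => zm (zi (zm b a)) (zm a b)
  have zu : ∀ {g σ τ}, Z g σ → Z g τ → σ = τ := fun a b =>
    Equiv.ext fun i => e.injective ((a i).symm.trans (b i))
  let N : Subgroup G :=
    { carrier := {g | Z g 1}
      one_mem' := fun i => one_smul _ _
      mul_mem' := fun a b => zm a b
      inv_mem' := fun a => zi a }
  let L := closure (insert n (Set.range s))
  have : Finite L := lf _ ((Set.finite_range s).insert n)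
  have hL : ∀ g ∈ L, ∃ σ, Z g σ := fun g hg => by
    induction hg using closure_induction with
    | mem x hx =>
      rcases hx with rfl | ⟨σ, rfl⟩
      exacts [⟨1, hn⟩, ⟨σ, hs σ⟩]
    | one => exact ⟨1, N.one_mem⟩
    | mul x y _ _ a b => exact a.elim fun _ a => b.elim fun _ b => ⟨_, zm a b⟩
    | inv x _ a => exact a.elim fun _ a => ⟨_, zi a⟩
  let M := N.subgroupOf L
  have : M.Normal := ⟨fun m hm g => by
    obtain ⟨σ, h⟩ := hL g g.2
    have := zm (zm h hm) (zi h)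
    rwa [mul_one, mul_inv_cancel] at this⟩
  have : Nontrivial M := ⟨⟨⟨⟨n, subset_closure (.inl rfl)⟩, hn⟩, 1, fun h =>
    n1 (congrArg (fun t : M => t.1.1) h)⟩⟩
  obtain ⟨p, p1, p2⟩ := Nat.exists_prime_and_dvd (Finite.one_lt_card (α := M)).ne'
  have := Fact.mk p1
  obtain ⟨P⟩ : Nonempty (Sylow p M) := inferInstance
  let P' := (P : Subgroup M).map M.subtype
  let Q := P'.map L.subtype
  have q1 : IsPGroup p Q := (P.2.map _).map _
  have q2 : Q ≠ ⊥ := fun h => P.ne_bot_of_dvd_card p2 ((map_eq_bot_iff_of_injective _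
    M.subtype_injective).1 ((map_eq_bot_iff_of_injective _ L.subtype_injective).1 h))
  have : Finite Q := Finite.of_injective _ (inclusion_injective (map_subtype_le P'))
  have := (nontrivial_iff_ne_bot Q).2 q2
  have q3 : ∀ a ∈ Q, Z a 1 := by
    rintro _ ⟨_, ⟨a, _, rfl⟩, rfl⟩
    exact a.2
  have q4 : ∀ σ, ∃ t ∈ normalizer (Q : Set G), Z t σ := fun σ => by
    have : (⟨s σ, subset_closure (.inr ⟨σ, rfl⟩)⟩ : L) ∈ normalizer (P' : Set L) ⊔ M :=
      (Sylow.normalizer_sup_eq_top P).symm ▸ mem_top _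
    obtain ⟨t, a, m, b, c⟩ := mem_sup_of_normal_right.1 this
    refine ⟨t, le_normalizer_map _ (mem_map_of_mem _ a), ?_⟩
    have d : t.1 = s σ * m.1⁻¹ := by rw [eq_mul_inv_iff_mul_eq]; exact congrArg Subtype.val c
    simpa [d] using zm (hs σ) (zi b)
  choose t t1 t2 using q4
  have nq : ∀ g ∈ normalizer (Q : Set G), ∀ a ∈ Q ⊓ centralizer (Q : Set G),
      g * a * g⁻¹ ∈ Q ⊓ centralizer (Q : Set G) := fun g hg a ha => by
    refine ⟨(hg a).1 ha.1, fun b hb => ?_⟩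
    have := ha.2 _ ((inv_mem hg b).1 hb)
    rw [inv_inv] at this
    calc _ = g * (g⁻¹ * b * g * a) * g⁻¹ := by group
      _ = _ := by rw [this]; group
  have q5 : Q ⊓ centralizer (Q : Set G) ≠ ⊥ := by
    have := q1.center_nontrivial
    obtain ⟨⟨a, ha⟩, b⟩ := exists_ne (1 : center Q)
    refine fun h => b (Subtype.ext (Subtype.ext (mem_bot.1 (h ▸ ⟨a.2, fun c hc => ?_⟩))))
    exact congrArg Subtype.val (mem_center_iff.1 ha ⟨c, hc⟩)
  rcases k2 _ _ q5 (fun a ha b hb => hb.2 a ha.1) nq with h | ⟨x, hx, y, hy, h⟩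
  · have := zc (zc (t2 (.swap 0 1)) (t2 (.swap 1 2))) (zc (t2 (.swap 1 2)) (t2 (.swap 2 3)))
    rw [h _ (t1 _) _ (t1 _) _ (t1 _) _ (t1 _)] at this
    exact absurd (zu this N.one_mem) (by decide)
  · let W : Finset G := {1, x, y, x * y}
    have w1 : ∀ a ∈ Q ⊓ centralizer (Q : Set G), a ∈ W := fun a ha => by
      simpa [W] using h a (ha.2 x hx.1).symm (ha.2 y hy.1).symm
    have w2 : W.card ≤ 4 := Finset.card_le_four
    have := Finset.card_le_card_of_injOn (s := Finset.univ) (t := W ×ˢ W)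
      (fun σ => (t σ * x * (t σ)⁻¹, t σ * y * (t σ)⁻¹)) (fun σ _ => by
        simpa using ⟨w1 _ (nq _ (t1 σ) x hx), w1 _ (nq _ (t1 σ) y hy)⟩) fun σ _ τ _ q => by
        have c : ∀ x : G, t σ * x * (t σ)⁻¹ = t τ * x * (t τ)⁻¹ →
            (t τ)⁻¹ * t σ * x = x * ((t τ)⁻¹ * t σ) := fun x q => by
          calc _ = (t τ)⁻¹ * (t σ * x * (t σ)⁻¹) * t σ := by group
            _ = _ := by rw [q]; group
        have z : Z ((t τ)⁻¹ * t σ) 1 := by
          rcases h _ (c x (congrArg Prod.fst q)) (c y (congrArg Prod.snd q)) with r | r | r | r <;>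
            rw [r]
          exacts [N.one_mem, q3 x hx.1, q3 y hy.1, q3 _ (mul_mem hx.1 hy.1)]
        exact (inv_mul_eq_one.1 (zu (zm (zi (t2 τ)) (t2 σ)) z)).symm
    rw [Finset.card_product, Finset.card_univ, Fintype.card_perm, Fintype.card_fin] at this
    have := this.trans (Nat.mul_le_mul w2 w2)
    exact absurd this (by decide)

theorem no4 [Infinite G] [FaithfulSMul G Ω] (k1 : K1 G) (k2 : K2 G)
    (lf : ∀ s : Set G, s.Finite → Finite (closure s)) (e : Fin 4 ↪ Ω)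
    (tr : ∀ e f : Fin 4 ↪ Ω, ∃ g : G, ∀ i, g • e i = f i) : False := by
  have : Infinite Ω := not_finite_iff_infinite.1 fun _ =>
    not_finite_iff_infinite.2 ‹Infinite G› (.of_injective _ (MulAction.toPerm_injective (β := Ω)))
  exact sharp k1 tr fun e g h => not_not.1 fun n =>
    frat k2 lf e (fun σ => tr e (σ.toEmbedding.trans e)) n h

end Pool.Agent.H.MP_57df8f_al
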