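import Pool.Agent.H.MP_57df8f_al.C
import Pool.Agent.H.MP_57df8f_al.D

set_option autoImplicit false

namespace Pool.Agent.H.MP_57df8f_al

open Matrix Subgroup ProjGenLinGroup

variable {F : Type} [Field F]

theorem span2 {x a : GL (Fin 2) F} (hx : mk x ≠ 1) (h : a * x = x * a) :
    ∃ α β : F, a.val = α • x.val + β • (1 : Matrix (Fin 2) (Fin 2) F) := by
  have e : ∀ i j, (a * x).val i j = (x * a).val i j := fun i j => by rw [h]
  have e0 := e 0 0
  have e1 := e 0 1
  have e2 := e 1 0
  simp only [Units.val_mul, Matrix.mul_apply, Fin.sum_univ_two] at e0 e1 e2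
  have k : ∀ α : F, a.val 0 1 = α * x.val 0 1 → a.val 1 0 = α * x.val 1 0 →
      a.val 0 0 - a.val 1 1 = α * (x.val 0 0 - x.val 1 1) →
      ∃ α β : F, a.val = α • x.val + β • (1 : Matrix (Fin 2) (Fin 2) F) := fun α a1 a2 a3 => by
    refine ⟨α, a.val 0 0 - α * x.val 0 0, ?_⟩
    ext i j
    fin_cases i <;> fin_cases j <;> simp [a1, a2]
    linear_combination -a3
  by_cases c1 : x.val 0 1 = 0
  · by_cases c2 : x.val 1 0 = 0
    · have c3 : x.val 0 0 - x.val 1 1 ≠ 0 := fun c3 => hx (by
        have hd := x.det.ne_zero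
        rw [GeneralLinearGroup.val_det_apply, det_fin_two, c1, zero_mul, sub_zero] at hd
        rw [← mk_scalar (Units.mk0 _ (left_ne_zero_of_mul hd))]
        congr 1
        ext i j
        fin_cases i <;> fin_cases j <;> simp [c1, c2]
        linear_combination -c3)
      refine k ((a.val 0 0 - a.val 1 1) / (x.val 0 0 - x.val 1 1)) ?_ ?_ ?_ <;> field_simp
      · linear_combination -e1
      · linear_combination e2
    · refine k (a.val 1 0 / x.val 1 0) ?_ ?_ ?_ <;> field_simp
      · linear_combination e0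
      · linear_combination -e2
  · refine k (a.val 0 1 / x.val 0 1) ?_ ?_ ?_ <;> field_simp
    · linear_combination -e0
    · linear_combination e1

theorem cc {x a b : GL (Fin 2) F} (hx : mk x ≠ 1) (h : a * x = x * a) (h' : b * x = x * b) :
    a * b = b * a := by
  obtain ⟨α, β, e⟩ := span2 hx h
  obtain ⟨γ, δ, f⟩ := span2 hx h'
  refine Units.ext ?_
  simp only [Units.val_mul, e, f, add_mul, mul_add, smul_mul_smul_comm, one_mul, mul_one]
  module

theorem pm {a b : GL (Fin 2) F} (h : mk a * mk b = mk b * mk a) :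
    a * b = b * a ∨ a * b = -(b * a) := by
  rw [← map_mul, ← map_mul, eq_comm, mk_eq_mk_iff] at h
  obtain ⟨u, hu⟩ := h
  have := congrArg GeneralLinearGroup.det hu
  simp only [map_mul, mul_comm (GeneralLinearGroup.det a), mul_eq_left] at this
  have h2 : u.val ^ 2 = 1 := by simpa using congrArg Units.val this
  rw [← hu]
  rcases sq_eq_one_iff.1 h2 with h | h
  · left; ext i j; simp [h]
  · right; ext i j; simp [h]

theorem anti {w z a : GL (Fin 2) F} (h : w * a = -(a * w)) (h' : z * a = -(a * z)) :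
    w⁻¹ * z * a = a * (w⁻¹ * z) := by
  rw [mul_assoc, h', inv_mul_eq_iff_eq_mul, ← mul_assoc, h, neg_mul, mul_assoc, mul_inv_cancel_left]

theorem k1 : K1 (PG F) := fun x hx => by
  induction x using ProjGenLinGroup.induction_on with | mk x =>
  refine ⟨(centralizer {x}).map mk, ?_, fun g h a b => ?_⟩
  · rintro _ ⟨a, ha, rfl⟩ _ ⟨b, hb, rfl⟩
    rw [← map_mul, ← map_mul, cc hx (mem_centralizer_singleton_iff.1 ha)
      (mem_centralizer_singleton_iff.1 hb)]
  · induction g using ProjGenLinGroup.induction_on with | mk g =>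
    induction h using ProjGenLinGroup.induction_on with | mk h =>
    rcases pm a with a | a
    · exact .inl ⟨g, mem_centralizer_singleton_iff.2 a, rfl⟩
    rcases pm b with b | b
    · exact .inr (.inl ⟨h, mem_centralizer_singleton_iff.2 b, rfl⟩)
    exact .inr (.inr ⟨_, mem_centralizer_singleton_iff.2 (anti a b), by simp⟩)

theorem aff {t n α β γ δ : F} (a1 : t = α * t + β * 2) (a2 : n = α ^ 2 * n + α * β * t + β ^ 2)
    (b1 : t = γ * t + δ * 2) (b2 : n = γ ^ 2 * n + γ * δ * t + δ ^ 2) :
    γ * β + δ = α * δ + β := by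
  by_cases h : (2 : F) = 0
  · by_cases ht : t = 0
    · subst ht
      refine sub_eq_zero.1 (pow_eq_zero_iff two_ne_zero |>.1 ?_)
      linear_combination (-(γ - 1) ^ 2) * a2 + (α - 1) ^ 2 * b2 +
        (n * (α - 1) * (γ - 1) * (α - γ) + δ ^ 2 * (α - 1) ^ 2 - β * δ * (α - 1) * (γ - 1)) * h
    · have e1 : α = 1 := mul_right_cancel₀ ht (by linear_combination -a1 - β * h)
      have e2 : γ = 1 := mul_right_cancel₀ ht (by linear_combination -b1 - δ * h)
      rw [e1, e2]; ring
  · exact mul_right_cancel₀ h (by linear_combination (1 - γ) * a1 + (α - 1) * b1)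

theorem inv2 {x g : GL (Fin 2) F} {α β : F}
    (h : (g * x * g⁻¹).val = α • x.val + β • (1 : Matrix (Fin 2) (Fin 2) F)) :
    x.val.trace = α * x.val.trace + β * 2 ∧
      x.val.det = α ^ 2 * x.val.det + α * β * x.val.trace + β ^ 2 := by
  constructor
  · have := congrArg trace h
    rw [Units.val_mul, Units.val_mul, trace_units_conj] at this
    simpa using this
  · have := congrArg det h
    rw [Units.val_mul, Units.val_mul, det_units_conj] at this
    refine this.trans ?_
    simp [det_fin_two, trace_fin_two]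
    ring

theorem k2 : K2 (PG F) := fun A T h0 ab nm => by
  by_cases H : ∀ a b : GL (Fin 2) F, mk a ∈ A → mk b ∈ A → a * b = b * a
  · obtain ⟨⟨x, hx⟩, x1⟩ := ne_bot_iff_exists_ne_one.1 h0
    induction x using ProjGenLinGroup.induction_on with | mk x =>
    have x1 : mk x ≠ 1 := fun h => x1 (Subtype.ext h)
    have c : ∀ g h : GL (Fin 2) F, mk g ∈ T → mk h ∈ T → cm g h * x = x * cm g h := by
      intro g h hg hh
      obtain ⟨α, β, e⟩ := span2 x1 (H (g * x * g⁻¹) x (by simpa using nm _ hg _ hx) hx)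
      obtain ⟨γ, δ, f⟩ := span2 x1 (H (h * x * h⁻¹) x (by simpa using nm _ hh _ hx) hx)
      have q := aff (inv2 e).1 (inv2 e).2 (inv2 f).1 (inv2 f).2
      have k : ∀ {g h : GL (Fin 2) F} {α β γ δ : F},
          (g * x * g⁻¹).val = α • x.val + β • (1 : Matrix (Fin 2) (Fin 2) F) →
          (h * x * h⁻¹).val = γ • x.val + δ • (1 : Matrix (Fin 2) (Fin 2) F) →
          (g * (h * x * h⁻¹) * g⁻¹).val = (γ * α) • x.val + (γ * β + δ) •
            (1 : Matrix (Fin 2) (Fin 2) F) := fun {g h α β γ δ} e f => by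
        rw [Units.val_mul, Units.val_mul, f, mul_add, add_mul, mul_smul_comm, smul_mul_assoc,
          mul_smul_comm, smul_mul_assoc, mul_one, Units.mul_inv, ← Units.val_mul, ← Units.val_mul, e]
        module
      have : g * (h * x * h⁻¹) * g⁻¹ = h * (g * x * g⁻¹) * h⁻¹ :=
        Units.ext (by rw [k e f, k f e, q, mul_comm])
      calc _ = (h * g)⁻¹ * (g * (h * x * h⁻¹) * g⁻¹) * (g * h) := by rw [cm]; group
        _ = _ := by rw [this, cm]; group
    refine .inl fun a ha b hb d hd e he => ?_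
    induction a using ProjGenLinGroup.induction_on with | mk a =>
    induction b using ProjGenLinGroup.induction_on with | mk b =>
    induction d using ProjGenLinGroup.induction_on with | mk d =>
    induction e using ProjGenLinGroup.induction_on with | mk e =>
    have := congrArg mk (cc x1 (c a b ha hb) (c d e hd he))
    simp only [cm, map_mul, map_inv] at this
    rw [cm, inv_mul_eq_one]
    exact this.symm
  · push Not at H
    obtain ⟨x, y, hx, hy, n⟩ := H
    have a := (pm (ab _ hx _ hy)).resolve_left n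
    have a' : y * x = -(x * y) := by rw [a, neg_neg]
    have b : ∀ w : GL (Fin 2) F, w * x = x * w → w * y = y * w → mk w = 1 := fun w c d =>
      not_not.1 fun h => n (cc h c.symm d.symm)
    have b' : ∀ w z : GL (Fin 2) F, w⁻¹ * z * x = x * (w⁻¹ * z) → w⁻¹ * z * y = y * (w⁻¹ * z) →
        mk z = mk w := fun w z c d => (inv_mul_eq_one.1 (by simpa using b _ c d)).symm
    have co : ∀ w z a : GL (Fin 2) F, w * a = a * w → z * a = a * z →
        w⁻¹ * z * a = a * (w⁻¹ * z) := fun w z a c d => (Commute.inv_left c).mul_left d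
    refine .inr ⟨_, hx, _, hy, fun z c d => ?_⟩
    induction z using ProjGenLinGroup.induction_on with | mk z =>
    rcases pm c with c | c <;> rcases pm d with d | d
    · exact .inl (b z c d)
    · exact .inr (.inl (b' x z (co _ _ _ rfl c) (anti a d)))
    · exact .inr (.inr (.inl (b' y z (anti a' c) (co _ _ _ rfl d))))
    · refine .inr (.inr (.inr ((b' (x * y) z (anti ?_ c) (anti ?_ d)).trans (map_mul _ _ _))))
      · rw [mul_assoc, a', mul_neg]
      · rw [← mul_assoc, a', neg_mul, neg_neg]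

theorem lfin (h : ∀ x : F, x ≠ 0 → IsOfFinOrder x) (s : Set (PG F)) (hs : s.Finite) :
    Finite (closure s) := by
  obtain ⟨p, hp⟩ := CharP.exists F
  rcases CharP.char_is_prime_or_zero F p with pp | rfl
  swap
  · have := CharP.charP_to_charZero F
    obtain ⟨n, a, b⟩ := isOfFinOrder_iff_pow_eq_one.1 (h 2 two_ne_zero)
    have : 2 ^ n = 1 := by exact_mod_cast b
    simp [a.ne'] at this
  have := Fact.mk pp
  let _ := ZMod.algebra F p
  choose l hl using mk_surjective (n := Fin 2) (R := F)
  let E : Set F := ⋃ g ∈ s, ⋃ i, ⋃ j, {(l g).val i j, (l g)⁻¹.val i j}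
  have e1 : E.Finite := hs.biUnion fun g _ => Set.finite_iUnion fun i => Set.finite_iUnion fun j =>
    Set.toFinite _
  have := Algebra.finite_adjoin_of_finite_of_isIntegral (R := ZMod p) e1 fun x _ => by
    by_cases e : x = 0
    · exact e ▸ isIntegral_zero
    · obtain ⟨n, a, b⟩ := isOfFinOrder_iff_pow_eq_one.1 (h x e)
      exact IsIntegral.of_pow a (b ▸ isIntegral_one)
  have : Finite (Algebra.adjoin (ZMod p) E) := Module.finite_of_finite (ZMod p)
  have m : ∀ a b : Matrix (Fin 2) (Fin 2) F, (∀ i j, a i j ∈ Algebra.adjoin (ZMod p) E) →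
      (∀ i j, b i j ∈ Algebra.adjoin (ZMod p) E) → ∀ i j, (a * b) i j ∈ Algebra.adjoin (ZMod p) E :=
    fun a b c d i j => by
      rw [Matrix.mul_apply]
      exact sum_mem fun k _ => mul_mem (c i k) (d k j)
  have o : ∀ i j, (1 : Matrix (Fin 2) (Fin 2) F) i j ∈ Algebra.adjoin (ZMod p) E := fun i j => by
    rw [Matrix.one_apply]
    split_ifs
    exacts [one_mem _, zero_mem _]
  let K : Subgroup (GL (Fin 2) F) :=
    { carrier := {g | (∀ i j, g.val i j ∈ Algebra.adjoin (ZMod p) E) ∧
        ∀ i j, g⁻¹.val i j ∈ Algebra.adjoin (ZMod p) E}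
      one_mem' := ⟨o, o⟩
      mul_mem' := fun a b => ⟨m _ _ a.1 b.1, m _ _ b.2 a.2⟩
      inv_mem' := fun a => ⟨a.2, a.1⟩ }
  have : Finite K := Finite.of_injective
    (fun g : K => fun i j => (⟨_, g.2.1 i j⟩ : Algebra.adjoin (ZMod p) E)) fun g g' e =>
      Subtype.ext (Units.ext (Matrix.ext fun i j => congrArg Subtype.val (congrFun (congrFun e i) j)))
  have : Finite (K.map mk) := Finite.of_surjective _ (MonoidHom.subgroupMap_surjective mk K)
  refine Finite.of_injective _ (inclusion_injective (K := K.map mk) ((closure_le _).2 fun g hg =>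
    ⟨l g, ⟨fun i j => Algebra.subset_adjoin ?_, fun i j => Algebra.subset_adjoin ?_⟩, hl g⟩))
  all_goals simp only [E, Set.mem_iUnion]
  exacts [⟨g, hg, i, j, .inl rfl⟩, ⟨g, hg, i, j, .inr rfl⟩]

theorem val2 (h : ¬ ∀ x : F, x ≠ 0 → IsOfFinOrder x) : ∃ O : ValuationSubring F, ∃ π : F, π ≠ 0 ∧
      O.valuation π < 1 ∧ ∀ r ≠ 0, ∃ n : ℕ, O.valuation π ^ n < r := by
  obtain ⟨p, hp⟩ := CharP.exists F
  rcases CharP.char_is_prime_or_zero F p with pp | rfl
  · have := Fact.mk pp
    let _ := ZMod.algebra F p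
    obtain ⟨s, hs⟩ := exists_isTranscendenceBasis (ZMod p) F
    rcases isEmpty_or_nonempty s with e | ⟨⟨i⟩⟩
    · refine absurd (fun x hx => ?_) h
      have := hs.isEmpty_iff_isAlgebraic.1 e
      have := Algebra.finite_adjoin_of_finite_of_isIntegral (R := ZMod p) (Set.finite_singleton x)
        fun x _ => (Algebra.IsAlgebraic.isAlgebraic x).isIntegral
      have : Finite (Algebra.adjoin (ZMod p) {x}) := Module.finite_of_finite (ZMod p)
      obtain ⟨i, j, a, b⟩ := Finite.exists_ne_map_eq_of_infinite fun n : ℕ =>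
        (⟨x ^ n, pow_mem (Algebra.self_mem_adjoin_singleton _ x) n⟩ : Algebra.adjoin (ZMod p) {x})
      replace b : x ^ i = x ^ j := congrArg Subtype.val b
      wlog c : i < j generalizing i j
      · exact this j i a.symm b.symm (by omega)
      obtain ⟨k, rfl⟩ := Nat.exists_eq_add_of_lt c
      rw [add_assoc, pow_add, eq_comm, mul_eq_left₀ (pow_ne_zero _ hx)] at b
      exact isOfFinOrder_iff_pow_eq_one.2 ⟨_, k.succ_pos, b⟩
    · exact val1 (ZMod p) hs (MvPolynomial.X_prime (i := i))
  · have := CharP.charP_to_charZero F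
    obtain ⟨s, hs⟩ := exists_isTranscendenceBasis ℤ F
    exact val1 ℤ hs ((MvPolynomial.prime_C_iff _).2 Int.prime_two)

end Pool.Agent.H.MP_57df8f_al
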